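import Mathlib
import Pool.Agent.W262.SH.Stm

/-! Task SH-SH1 (helper262), part 1: the points of order two. -/

set_option autoImplicit false

namespace Pool.Agent.W334.SH

open WeierstrassCurve Pool.Agent.W262.RK Pool.Agent.W262.SH

variable {F : Type} [Field F] [DecidableEq F]

lemma isX_zero (W : WeierstrassCurve F) (e : F) : IsX W e 0 := Or.inl rfl

lemma isX_some (W : WeierstrassCurve F) (e x y : F) (h : W.toAffine.Nonsingular x y) :
    IsX W e (.some x y h) ↔ x = e := by
  constructor
  · rintro (h1 | ⟨y', h', h2⟩)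
    · exact absurd h1 (Affine.Point.some_ne_zero h)
    · simp only [Affine.Point.some.injEq] at h2
      exact h2.1
  · rintro rfl
    exact Or.inr ⟨y, h, rfl⟩

/-- the curve equation -/
lemma eqn (W : WeierstrassCurve F) (a b : F) (hW : IsW W a b) (x y : F) :
    W.toAffine.Equation x y ↔ y ^ 2 = x * (x - a) * (x - b) := by
  obtain ⟨h1, h2, h3, h4, h6⟩ := hW
  rw [Affine.equation_iff, h1, h2, h3, h4, h6]
  constructor
  · intro h
    linear_combination h
  · intro h
    linear_combination h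

/-- the points of order two -/
lemma tors [CharZero F] (W : WeierstrassCurve F) (a b : F) (hW : IsW W a b)
    (T : W.toAffine.Point) (hT : T + T = 0) :
    T = 0 ∨ ∃ (e : F) (h : W.toAffine.Nonsingular e 0), (e = 0 ∨ e = a ∨ e = b) ∧
      T = .some e 0 h := by
  rcases T with _ | ⟨x, y, h⟩
  · exact Or.inl rfl
  · right
    have h1 : (Affine.Point.some x y h : W.toAffine.Point) = - .some x y h :=
      eq_neg_of_add_eq_zero_left hT
    rw [Affine.Point.neg_some, Affine.Point.some.injEq] at h1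
    have h2 : y = W.toAffine.negY x y := h1.2
    obtain ⟨w1, w2, w3, w4, w6⟩ := id hW
    have h3 : y = 0 := by
      have h4 : W.toAffine.negY x y = -y - W.a₁ * x - W.a₃ := rfl
      rw [h4, w1, w3] at h2
      have h5 : 2 * y = 0 := by linear_combination h2
      simpa using h5
    subst h3
    have h5 := (eqn W a b hW x 0).1 h.1
    have h6 : x * (x - a) * (x - b) = 0 := by rw [← h5]; ring
    refine ⟨x, h, ?_, rfl⟩
    rcases mul_eq_zero.1 h6 with h7 | h7
    · rcases mul_eq_zero.1 h7 with h8 | h8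
      · exact Or.inl h8
      · exact Or.inr (Or.inl (sub_eq_zero.1 h8))
    · exact Or.inr (Or.inr (sub_eq_zero.1 h7))

/-- the sum of two points of order two -/
lemma add_two (W : WeierstrassCurve F) (a b : F) (hW : IsW W a b) (e1 e2 : F)
    (h1 : W.toAffine.Nonsingular e1 0) (h2 : W.toAffine.Nonsingular e2 0) (h12 : e1 ≠ e2) :
    ∃ h3 : W.toAffine.Nonsingular (a + b - e1 - e2) 0,
      (.some e1 0 h1 : W.toAffine.Point) + .some e2 0 h2 = .some (a + b - e1 - e2) 0 h3 := by
  obtain ⟨w1, w2, w3, w4, w6⟩ := id hW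
  have hs : W.toAffine.slope e1 e2 0 0 = 0 := by
    rw [Affine.slope_of_X_ne h12]; simp
  have hx : W.toAffine.addX e1 e2 (W.toAffine.slope e1 e2 0 0) = a + b - e1 - e2 := by
    rw [hs]
    unfold Affine.addX
    rw [w1, w2]
    ring
  have hy : W.toAffine.addY e1 e2 0 (W.toAffine.slope e1 e2 0 0) = 0 := by
    rw [hs]
    unfold Affine.addY Affine.negAddY Affine.negY
    rw [w1, w3]
    ring
  have h3 := Affine.nonsingular_add h1 h2 (fun hxy => h12 hxy.1)
  have h4 := Affine.Point.add_of_X_ne (W := W.toAffine) (h₁ := h1) (h₂ := h2) h12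
  rw [hx, hy] at h3
  refine ⟨h3, ?_⟩
  rw [h4]
  simp only [Affine.Point.some.injEq]
  exact ⟨hx, hy⟩

/-- the two characters -/
lemma xor_both [CharZero F] (W : WeierstrassCurve F) (a b : F) (hW : IsW W a b) (ha : a ≠ 0)
    (hb : b ≠ 0) (hab : a ≠ b) (T T' : W.toAffine.Point) (hT : T + T = 0) (hT' : T' + T' = 0) :
    (IsX W 0 (T + T') ↔ (IsX W 0 T ↔ IsX W 0 T')) ∧
    (IsX W a (T + T') ↔ (IsX W a T ↔ IsX W a T')) := by
  rcases tors W a b hW T hT with rfl | ⟨e1, h1, he1, rfl⟩
  · rw [zero_add]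
    exact ⟨by simp [isX_zero], by simp [isX_zero]⟩
  rcases tors W a b hW T' hT' with rfl | ⟨e2, h2, he2, rfl⟩
  · rw [add_zero]
    exact ⟨by simp [isX_zero], by simp [isX_zero]⟩
  by_cases h12 : e1 = e2
  · subst h12
    rw [hT]
    exact ⟨by simp [isX_zero], by simp [isX_zero]⟩
  · obtain ⟨h3, h4⟩ := add_two W a b hW e1 e2 h1 h2 h12
    rw [h4, isX_some, isX_some, isX_some, isX_some, isX_some, isX_some]
    have hba : b ≠ a := hab.symm
    have ha' : (0 : F) ≠ a := ha.symm
    have hb' : (0 : F) ≠ b := hb.symm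
    rcases he1 with rfl | rfl | rfl <;> rcases he2 with rfl | rfl | rfl <;>
      first
      | exact absurd rfl h12
      | (constructor <;> ring_nf <;> simp [ha, hb, hab, hba, ha', hb'])

/-- a point of order two is determined by the two characters -/
lemma ext_both [CharZero F] (W : WeierstrassCurve F) (a b : F) (hW : IsW W a b) (ha : a ≠ 0)
    (hb : b ≠ 0) (hab : a ≠ b) (T T' : W.toAffine.Point) (hT : T + T = 0) (hT' : T' + T' = 0)
    (h0 : IsX W 0 T ↔ IsX W 0 T') (h1 : IsX W a T ↔ IsX W a T') : T = T' := by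
  have h2 := xor_both W a b hW ha hb hab T T' hT hT'
  have h3 : IsX W 0 (T + T') := h2.1.2 h0
  have h4 : IsX W a (T + T') := h2.2.2 h1
  have h5 : T + T' = 0 := by
    rcases h3 with h3 | ⟨y, h, h3⟩
    · exact h3
    · rw [h3, isX_some] at h4
      exact absurd h4.symm ha
  have h6 : T' = -T' := eq_neg_of_add_eq_zero_left hT'
  rw [h6]
  exact eq_neg_of_add_eq_zero_left h5

end Pool.Agent.W334.SH
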