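import Mathlib
import Pool.Agent.W262.SH.Stm
import Pool.Agent.W334.SH.Tors

/-! Task SH-SH1 (helper262): Selmer homomorphisms and square classes. -/

set_option autoImplicit false

namespace Pool.Agent.W334.SH

open WeierstrassCurve Pool.Agent.W262.RK Pool.Agent.W262.SH

open scoped Classical

lemma isW_E (A B : ℤ) (L : Type) [Field L] [Algebra ℚ L] :
    IsW ((E A B).baseChange L) (A : L) (B : L) := by
  have : CharZero L := algebraRat.charZero L
  unfold IsW E WeierstrassCurve.baseChange WeierstrassCurve.map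
  refine ⟨map_zero _, ?_, map_zero _, ?_, map_zero _⟩
  · show algebraMap ℚ L (-((A : ℚ) + B)) = _
    rw [map_neg, map_add, map_intCast, map_intCast]
  · show algebraMap ℚ L ((A : ℚ) * B) = _
    rw [map_mul, map_intCast, map_intCast]

lemma algQB : Algebra.IsAlgebraic ℚ QB := by
  have h : (inferInstance : Algebra ℚ QB) = AlgebraicClosure.instAlgebra ℚ :=
    Subsingleton.elim _ _
  have h2 : @Algebra.IsAlgebraic ℚ QB _ _ (AlgebraicClosure.instAlgebra ℚ) := inferInstance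
  rw [← h] at h2
  exact h2

lemma norQB : Normal ℚ QB := by
  have h : (inferInstance : Algebra ℚ QB) = AlgebraicClosure.instAlgebra ℚ :=
    Subsingleton.elim _ _
  have h2 : @Normal ℚ QB _ _ (AlgebraicClosure.instAlgebra ℚ) := inferInstance
  rw [← h] at h2
  exact h2

lemma isX_act (W : WeierstrassCurve ℚ) {F L : Type} [Field F] [Field L] [Algebra ℚ F]
    [Algebra ℚ L] (φ : F →ₐ[ℚ] L) (e : F) (P : Pt W F) :
    IsX (W.baseChange L) (φ e) (act W φ P) ↔ IsX (W.baseChange F) e P := by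
  rcases P with _ | ⟨x, y, h⟩
  · constructor
    · intro _
      exact Or.inl rfl
    · intro _
      exact Or.inl rfl
  · show IsX _ _ (Affine.Point.map φ (.some x y h)) ↔ _
    rw [Affine.Point.map_some, isX_some, isX_some]
    exact φ.injective.eq_iff

/-- the pair of square classes of a homomorphism -/
structure Rel (A B : ℤ) (h : (QB ≃ₐ[ℚ] QB) → Pt (E A B) QB) (e : ℤ × ℤ) : Prop where
  sf1 : Squarefree e.1
  sf2 : Squarefree e.2
  k1 : ∀ s : QB, s ^ 2 = e.1 → ∀ σ : QB ≃ₐ[ℚ] QB, σ s = s ↔ IsX ((E A B).baseChange QB) 0 (h σ)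
  k2 : ∀ s : QB, s ^ 2 = e.2 → ∀ σ : QB ≃ₐ[ℚ] QB, σ s = s ↔ IsX ((E A B).baseChange QB) A (h σ)

lemma exists_rel (hK : KUM) (A B : ℤ) (hA : A ≠ 0) (hB : B ≠ 0) (hAB : A ≠ B)
    (h : (QB ≃ₐ[ℚ] QB) → Pt (E A B) QB) (hs : IsSel A B h) : ∃ e, Rel A B h e := by
  obtain ⟨hl, h2, hm, -⟩ := hs
  have hA' : (A : QB) ≠ 0 := Int.cast_ne_zero.2 hA
  have hB' : (B : QB) ≠ 0 := Int.cast_ne_zero.2 hB
  have hAB' : (A : QB) ≠ B := fun hh => hAB (Int.cast_injective hh)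
  have hx := fun σ τ => xor_both ((E A B).baseChange QB) (A : QB) B (isW_E A B QB) hA' hB' hAB'
    (h σ) (h τ) (h2 σ) (h2 τ)
  obtain ⟨e1, sf1, k1⟩ := hK (fun σ => decide (¬ IsX ((E A B).baseChange QB) 0 (h σ)))
    (hl.comp (fun P => decide (¬ IsX ((E A B).baseChange QB) 0 P))) (fun σ τ => by
      have h3 := (hx σ τ).1
      rw [hm]
      by_cases c1 : IsX ((E A B).baseChange QB) 0 (h σ) <;>
        by_cases c2 : IsX ((E A B).baseChange QB) 0 (h τ) <;> simp [c1, c2, h3])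
  obtain ⟨e2, sf2, k2⟩ := hK (fun σ => decide (¬ IsX ((E A B).baseChange QB) A (h σ)))
    (hl.comp (fun P => decide (¬ IsX ((E A B).baseChange QB) A P))) (fun σ τ => by
      have h3 := (hx σ τ).2
      rw [hm]
      by_cases c1 : IsX ((E A B).baseChange QB) A (h σ) <;>
        by_cases c2 : IsX ((E A B).baseChange QB) A (h τ) <;> simp [c1, c2, h3])
  refine ⟨(e1, e2), sf1, sf2, fun s hs σ => ?_, fun s hs σ => ?_⟩
  · rw [k1 s hs σ]
    simp
  · rw [k2 s hs σ]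
    simp

lemma rel_inj (A B : ℤ) (hA : A ≠ 0) (hB : B ≠ 0) (hAB : A ≠ B)
    (h h' : (QB ≃ₐ[ℚ] QB) → Pt (E A B) QB) (hs : IsSel A B h) (hs' : IsSel A B h') (e : ℤ × ℤ)
    (r : Rel A B h e) (r' : Rel A B h' e) : h = h' := by
  have hA' : (A : QB) ≠ 0 := Int.cast_ne_zero.2 hA
  have hB' : (B : QB) ≠ 0 := Int.cast_ne_zero.2 hB
  have hAB' : (A : QB) ≠ B := fun hh => hAB (Int.cast_injective hh)
  obtain ⟨s1, h1⟩ := IsAlgClosed.exists_pow_nat_eq (e.1 : QB) (n := 2) (by norm_num)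
  obtain ⟨s2, h2⟩ := IsAlgClosed.exists_pow_nat_eq (e.2 : QB) (n := 2) (by norm_num)
  funext σ
  refine ext_both ((E A B).baseChange QB) (A : QB) B (isW_E A B QB) hA' hB' hAB' (h σ) (h' σ)
    (hs.2.1 σ) (hs'.2.1 σ) ?_ ?_
  · rw [← r.k1 s1 h1 σ, ← r'.k1 s1 h1 σ]
  · rw [← r.k2 s2 h2 σ, ← r'.k2 s2 h2 σ]

/-- extension of automorphisms restricts -/
lemma exists_sigma (K : Type) [Field K] [Algebra ℚ K] (ι : QB →ₐ[ℚ] AlgebraicClosure K)
    (τ : AlgebraicClosure K ≃ₐ[K] AlgebraicClosure K) :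
    ∃ σ : QB ≃ₐ[ℚ] QB, (τ.toAlgHom.restrictScalars ℚ).comp ι = ι.comp σ.toAlgHom := by
  let _ : Algebra QB (AlgebraicClosure K) := ι.toRingHom.toAlgebra
  have : @IsScalarTower ℚ QB (AlgebraicClosure K) Algebra.toSMul Algebra.toSMul Algebra.toSMul :=
    IsScalarTower.of_algebraMap_eq' (by
      ext q
      exact (ι.commutes q).symm)
  have := norQB
  let τ' : AlgebraicClosure K ≃ₐ[ℚ] AlgebraicClosure K := τ.restrictScalars ℚ
  refine ⟨τ'.restrictNormal QB, ?_⟩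
  ext x
  exact (AlgEquiv.restrictNormal_commutes τ' QB x).symm

lemma rel_mem (hL : LOCX) (A B : ℤ) (hA : A ≠ 0) (hB : B ≠ 0) (hAB : A ≠ B)
    (h : (QB ≃ₐ[ℚ] QB) → Pt (E A B) QB) (hs : IsSel A B h) (e : ℤ × ℤ) (r : Rel A B h e) :
    e ∈ SelS A B := by
  refine ⟨r.sf1, r.sf2, fun p hp hp2 => ?_⟩
  let _ : Algebra ℚ (AlgebraicClosure ℚ_[p]) := AlgebraicClosure.instAlgebra ℚ_[p]
  have := algQB
  obtain ⟨-, h2, -, hloc⟩ := hs
  have hloc := hloc p hp2
  obtain ⟨s1, h1⟩ := IsAlgClosed.exists_pow_nat_eq (e.1 : QB) (n := 2) (by norm_num)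
  obtain ⟨s2, h2'⟩ := IsAlgClosed.exists_pow_nat_eq (e.2 : QB) (n := 2) (by norm_num)
  let ι : QB →ₐ[ℚ] AlgebraicClosure ℚ_[p] := IsAlgClosed.lift
  obtain ⟨R, hR⟩ := hloc ι
  refine hL p hp2 (AlgebraicClosure ℚ_[p]) A B hA hB hAB e.1 e.2 r.sf1.ne_zero r.sf2.ne_zero
    (ι s1) (ι s2) ?_ ?_ R ?_
  · rw [← map_pow, h1, map_intCast]
  · rw [← map_pow, h2', map_intCast]
  · intro τ
    obtain ⟨σ, hσ⟩ := exists_sigma ℚ_[p] ι τ
    have hc := hR τ σ hσ
    have hσx : ∀ x : QB, τ (ι x) = ι (σ x) := fun x => DFunLike.congr_fun hσ x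
    have hinj : ∀ x y : QB, ι x = ι y ↔ x = y := fun x y => ι.injective.eq_iff
    refine ⟨act (E A B) ι (h σ), ?_, ?_, ?_, ?_⟩
    · rw [← map_add, h2 σ, map_zero]
    · rw [hc]
      abel
    · rw [hσx, hinj (σ s1) s1, r.k1 s1 h1 σ, ← isX_act (E A B) ι 0 (h σ), map_zero]
    · rw [hσx, hinj (σ s2) s2, r.k2 s2 h2' σ, ← isX_act (E A B) ι A (h σ), map_intCast]

theorem sh1 (hK : KUM) (hL : LOCX) : SH1 := by
  intro A B hA hB hAB hfin
  have hex := fun h hs => exists_rel hK A B hA hB hAB h hs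
  choose f hf using hex
  let g : ((QB ≃ₐ[ℚ] QB) → Pt (E A B) QB) → ℤ × ℤ := fun h =>
    if hs : IsSel A B h then f h hs else 0
  have hg : ∀ h (hs : IsSel A B h), Rel A B h (g h) := by
    intro h hs
    have : g h = f h hs := dif_pos hs
    rw [this]
    exact hf h hs
  have hmaps : Set.MapsTo g {h | IsSel A B h} (SelS A B) := fun h hs =>
    rel_mem hL A B hA hB hAB h hs (g h) (hg h hs)
  have hinj : Set.InjOn g {h | IsSel A B h} := by
    intro h hs h' hs' hh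
    have r' := hg h' hs'
    rw [← hh] at r'
    exact rel_inj A B hA hB hAB h h' hs hs' (g h) (hg h hs) r'
  exact ⟨Set.Finite.of_injOn hmaps hinj hfin,
    Set.ncard_le_ncard_of_injOn g hmaps hinj hfin⟩

end Pool.Agent.W334.SH
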